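import Pool.Agent.TH735.AQ.Crit

set_option autoImplicit false

/-!
# Generalised abundance for nef line bundles on quotients of complex tori by finite groups

Let `X = V / Γ` be the quotient of a complex torus of any dimension by any finite group, projective or
not, smooth or singular. Every nef line bundle on `X` is numerically semiample, by a fibration which only
depends on its Chern form, and it is semiample if and only if it is torsion on the torus which is given by
the kernel of the Chern form.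

`latt`, `IsTorusQuotient` and `LineBundle` are defined in `Pool.Agent.W594.SYZ.Defs2`; `IsChernForm`,
`IsNefForm`, `IsPositiveForm` and `Induces` in `Pool.Agent.W594.SYZ.TQDefs`; `IsFibration`,
`IsSemiample` and `IsFlat` in `Pool.Agent.TH735.AQ.Defs`; `TorsionOnKernel` in
`Pool.Agent.TH735.AQ.KerDefs`.
-/

namespace Pool.Agent.Results.MP_1149f4_ag.TorusQuotientsNumerical

open Pool.Agent.W594.SYZ2 Pool.Agent.TH735.AQ

variable {V : Type*} [NormedAddCommGroup V] [NormedSpace ℂ V]

/-- `M` is `L ^ k ⊗ P` for some `k ≥ 1` and some line bundle `P` given by a unitary character. -/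
def IsFlatTwist {Γ : Subgroup (V ≃ᵃ[ℂ] V)} (L M : LineBundle Γ) : Prop :=
  ∃ (k : ℕ) (P : LineBundle Γ), 1 ≤ k ∧ IsFlat P ∧ ∀ γ v, M.e γ v = L.e γ v ^ k * P.e γ v

/-- `L` is numerically semiample: some `M = L ^ k ⊗ P` with `k ≥ 1` and `P` flat is semiample. -/
def IsNumSemiample {Γ : Subgroup (V ≃ᵃ[ℂ] V)} (L : LineBundle Γ) : Prop :=
  ∃ M : LineBundle Γ, IsFlatTwist L M ∧ IsSemiample M

/-- The linear map `π` has kernel `ker H` and induces a fibration of `X = V / Γ` over a torus quotient
`ℂ ^ n / Δ`, and `M` is, up to a positive power, the pullback of an ample line bundle on the base. -/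
def FibresBy {Γ : Subgroup (V ≃ᵃ[ℂ] V)} (M : LineBundle Γ) (H : V → V → ℂ) : Prop :=
  ∃ (n : ℕ) (Δ : Subgroup ((Fin n → ℂ) ≃ᵃ[ℂ] (Fin n → ℂ))) (π : V →ₗ[ℂ] (Fin n → ℂ)),
    (∀ v, π v = 0 ↔ ∀ w, H v w = 0) ∧ IsFibration Γ Δ π ∧ Induces M Δ π

theorem lb_ext {Γ : Subgroup (V ≃ᵃ[ℂ] V)} {L M : LineBundle Γ} (h : L.e = M.e) : L = M := by
  cases L
  cases M
  simp only [LineBundle.mk.injEq]
  exact h

/-- Let `X = V / Γ` be the quotient of a complex torus by a finite group and `L` a line bundle on `X` with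
Chern form `H`. (1) `L` is nef if and only if it is numerically semiample. (2) In this case there are
`k ≥ 1` and a flat `P` such that `L ^ k ⊗ P` is, up to a power, the pullback of an ample line bundle under
the fibration given by the kernel of `H`. (3) `L` is semiample if and only if it is nef and a power of it is
trivial on the torus given by the kernel of `H`. -/
theorem result [FiniteDimensional ℂ V] (Γ : Subgroup (V ≃ᵃ[ℂ] V)) (hΓ : IsTorusQuotient Γ)
    (L : LineBundle Γ) (H : V → V → ℂ) (hc : IsChernForm L H) :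
    (IsNefForm H ↔ IsNumSemiample L) ∧
    (IsNefForm H → ∃ M : LineBundle Γ, IsFlatTwist L M ∧ FibresBy M H) ∧
    (IsSemiample L ↔ IsNefForm H ∧ TorsionOnKernel L H) := by
  have h2 : IsNefForm H → ∃ M : LineBundle Γ, IsFlatTwist L M ∧ FibresBy M H := by
    intro hn
    obtain ⟨k, P, hk, hP, n, Δ, π, h4, h5, h6⟩ := numerical hΓ hc hn
    exact ⟨tensor (L.pow k) P, ⟨k, P, hk, hP, fun _ _ => rfl⟩, n, Δ, π, h4, h5, h6⟩
  refine ⟨⟨fun hn => ?_, ?_⟩, h2, ⟨fun hs => ⟨?_, torsion_of_semiample hΓ hc hs⟩, fun h =>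
    semiample_of_torsion hΓ hc h.1 h.2⟩⟩
  · obtain ⟨M, hM, n, Δ, π, -, h5, h6⟩ := h2 hn
    exact ⟨M, hM, n, Δ, π, h5, h6⟩
  · rintro ⟨M, ⟨k, P, hk, hP, hM⟩, n, Δ, π, h5, h6⟩
    have hMe : M = tensor (L.pow k) P := lb_ext (funext fun γ => funext fun v => hM γ v)
    rw [hMe] at h6
    exact (kernel_of_induces hΓ hc hP hk h5 h6).1
  · obtain ⟨n, Δ, π, h5, h6⟩ := hs
    exact (nef_of_induces hΓ hc h5 h6).1

end Pool.Agent.Results.MP_1149f4_ag.TorusQuotientsNumerical
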